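import Pool.Agent.Y645.UP.Stm
import Pool.Agent.Y624.UM.Dedup

/-!
# Reduction to clean tuples (adaptation of helper624's `Pool.Agent.Y624.UM.Dedup`)
-/

namespace Pool.Agent.Y837.UP

open MvPolynomial Module Pool.Agent.Y645.UL Pool.Agent.Y645.UM Pool.Agent.Y645.UP
open Pool.Agent.Y624.UM (isoRk_restrict const_of_not_transcendental)

variable {k : Type} [Field k]

/-- The transcendence degree does not change if we remove constant coordinates. -/
theorem td_restrict {M J : Type} [Field M] [Algebra k M] [Finite J]
    (z : J → M) (S : J → Prop)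
    (H : ∀ j, ¬ S j → ∃ c : k, z j = algebraMap k M c) :
    td k z = td k (fun j : {j // S j} => z j) := by
  apply le_antisymm
  · apply td_le_of_alg
    intro j
    by_cases hj : S j
    · exact alg_self ⟨⟨j, hj⟩, rfl⟩
    · obtain ⟨c, hc⟩ := H j hj
      rw [hc]
      have h2 : algebraMap k M c = algebraMap (Algebra.adjoin k
        (Set.range (fun j : {j // S j} => z j))) M (algebraMap k _ c) := rfl
      rw [h2]
      exact isAlgebraic_algebraMap _
  · apply td_le_of_alg
    intro j
    exact alg_self ⟨j.1, rfl⟩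

theorem rel_spp (D : Data k) {L L' J : Type} [Field L] [Algebra k L] [Field L'] [Algebra k L']
    {x : J → L} {y : J → L'} (h : Spp k x y) {i j : J}
    (hr : Rel D (x i) (x j)) : Rel D (y i) (y j) := by
  obtain ⟨N, hN, h1⟩ := hr
  refine ⟨N, hN, ?_⟩
  have h2 : ∀ {M : Type} [Field M] [Algebra k M] (z : J → M),
      aeval z (rename (![i, j] : Fin 2 → J) (D.Φ N)) = aeval ![z i, z j] (D.Φ N) := by
    intro M _ _ z
    rw [aeval_rename]
    have h3 : (z ∘ (![i, j] : Fin 2 → J)) = ![z i, z j] := by
      funext t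
      fin_cases t <;> rfl
    rw [h3]
  have h4 := h (rename (![i, j] : Fin 2 → J) (D.Φ N)) (by rw [h2]; exact h1)
  rw [h2] at h4
  exact h4

theorem const_spp {L L' J : Type} [Field L] [Algebra k L] [Field L'] [Algebra k L']
    {x : J → L} {y : J → L'} (h : Spp k x y) {j : J} {c : k}
    (hc : x j = algebraMap k L c) : y j = algebraMap k L' c := by
  have h1 := h (X j - C c) (by
    rw [map_sub, aeval_X, aeval_C]
    exact sub_eq_zero.2 hc)
  rw [map_sub, aeval_X, aeval_C] at h1
  exact sub_eq_zero.1 h1

theorem t_DEDUPp : Pool.Agent.Y645.UP.S_DEDUPp := by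
  classical
  intro k _ _ D hD hP J _ L _ _ x
  obtain ⟨hrefl, hsymm, htrans, halg, hspec⟩ := hD.1 L
  let s : Setoid J := ⟨fun i j => Rel D (x i) (x j), fun i => hrefl _, fun h => hsymm _ _ h,
    fun h1 h2 => htrans _ _ _ h1 h2⟩
  let rep : J → J := fun j => (Quotient.mk s j).out
  have hrep : ∀ j, Rel D (x (rep j)) (x j) := by
    intro j
    have h1 : s.r (Quotient.mk s j).out j := Quotient.mk_out j
    exact h1
  have hreq : ∀ i j, Rel D (x i) (x j) → rep i = rep j := by
    intro i j h
    have h1 : Quotient.mk s i = Quotient.mk s j := Quotient.sound h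
    show (Quotient.mk s i).out = (Quotient.mk s j).out
    rw [h1]
  have hrr : ∀ j, rep (rep j) = rep j := fun j => hreq _ _ (hrep j)
  -- constants are only related to constants
  have hcon : ∀ i j, Rel D (x i) (x j) → ¬ Transcendental k (x i) → ¬ Transcendental k (x j) := by
    intro i j hij hi hj
    obtain ⟨c, hc⟩ := const_of_not_transcendental hi
    have h1 := halg _ _ hij
    apply hj
    have h2 : IsAlgebraic (Algebra.adjoin k (∅ : Set L)) (x j) := by
      refine alg_trans ?_ h1
      intro a ha
      rw [Set.mem_singleton_iff] at ha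
      have h3 : a = algebraMap (Algebra.adjoin k (∅ : Set L)) L (algebraMap k _ c) := by
        rw [ha, hc]; rfl
      rw [h3]
      exact isAlgebraic_algebraMap _
    obtain ⟨p, hp0, hp⟩ := h2
    -- the algebra generated by the empty set is the image of `k`
    have h4 : ∀ a : Algebra.adjoin k (∅ : Set L), ∃ b : k, algebraMap k _ b = a := by
      intro a
      have h5 : ∀ t : L, t ∈ Algebra.adjoin k (∅ : Set L) → ∃ b : k, algebraMap k L b = t := by
        intro t ht
        rw [Algebra.adjoin_empty, Algebra.mem_bot] at ht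
        exact ht
      obtain ⟨b, hb⟩ := h5 a.1 a.2
      exact ⟨b, Subtype.ext hb⟩
    have h6 : Algebra.IsAlgebraic k (Algebra.adjoin k (∅ : Set L)) := by
      refine ⟨fun a => ?_⟩
      obtain ⟨b, hb⟩ := h4 a
      rw [← hb]
      exact isAlgebraic_algebraMap b
    exact IsAlgebraic.restrictScalars k ⟨p, hp0, hp⟩
  let S : J → Prop := fun j => ¬ SpecAt D (x j) ∧ (Transcendental k (x j) ∨ rep j = j)
  have hS : ∀ j, ¬ S j → SpecAt D (x j) ∨
      (¬ Transcendental k (x j) ∧ S (rep j) ∧ Rel D (x (rep j)) (x j)) := by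
    intro j hj
    by_cases h1 : SpecAt D (x j)
    · exact Or.inl h1
    · right
      have h2 : ¬ Transcendental k (x j) := fun h => hj ⟨h1, Or.inl h⟩
      refine ⟨h2, ⟨fun h => h1 (hspec _ _ h (hrep j)), Or.inr (hrr j)⟩, hrep j⟩
  -- constants
  have hSc : ∀ j, ¬ S j → ∃ c : k, x j = algebraMap k L c := by
    intro j hj
    rcases hS j hj with ⟨c, -, hc⟩ | ⟨h, -, -⟩
    · exact ⟨c, hc⟩
    · exact const_of_not_transcendental h
  have hclean : Clean D (fun j : {j // S j} => x j) := by
    refine ⟨fun i => i.2.1, ?_⟩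
    intro i j hij hr
    by_contra hn
    have h1 : rep i.1 = i.1 := by
      rcases i.2.2 with h | h
      · exact absurd h hn
      · exact h
    have h2 : rep j.1 = j.1 := by
      rcases j.2.2 with h | h
      · exact absurd h (hcon _ _ hr hn)
      · exact h
    apply hij
    apply Subtype.ext
    rw [← h1, ← h2]
    exact hreq _ _ hr
  obtain ⟨g', hg', hg⟩ := hP {j // S j} L (fun j : {j // S j} => x j) hclean
  have hren : ∀ {M : Type} [Field M] [Algebra k M] (z : J → M)
      (f : MvPolynomial {j // S j} k),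
      aeval z (rename Subtype.val f : MvPolynomial J k) =
        aeval (fun j : {j // S j} => z j) f := by
    intro M _ _ z f
    rw [aeval_rename]
    rfl
  refine ⟨rename Subtype.val g', by rw [hren]; exact hg', ?_⟩
  intro L' _ _ y hsp hlt
  rw [hren]
  apply hg L' (fun j : {j // S j} => y j)
  · intro f hf
    have h1 := hsp (rename Subtype.val f) (by rw [hren]; exact hf)
    rw [hren] at h1
    exact h1
  · have e1 : isoRk D x = isoRk D (fun j : {j // S j} => x j) := by
      apply isoRk_restrict D hD
      intro j hj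
      rcases hS j hj with h | ⟨-, h1, h2⟩
      · exact Or.inl h
      · exact Or.inr ⟨rep j, h1, h2⟩
    have e2 : isoRk D y = isoRk D (fun j : {j // S j} => y j) := by
      apply isoRk_restrict D hD
      intro j hj
      rcases hS j hj with ⟨c, hc, hc2⟩ | ⟨-, h1, h2⟩
      · exact Or.inl ⟨c, hc, const_spp hsp hc2⟩
      · exact Or.inr ⟨rep j, h1, rel_spp D hsp h2⟩
    have e3 : td k x = td k (fun j : {j // S j} => x j) := td_restrict x S hSc
    have e4 : td k y = td k (fun j : {j // S j} => y j) := by
      apply td_restrict y S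
      intro j hj
      obtain ⟨c, hc⟩ := hSc j hj
      exact ⟨c, const_spp hsp hc⟩
    rw [← e1, ← e2, ← e3, ← e4]
    exact hlt

end Pool.Agent.Y837.UP
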